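import Pool.Agent.E8helper4.FV.Stm2

/-!
# Project FV2: K4
-/

set_option autoImplicit false

open Complex MeasureTheory Metric Set Filter Topology ComplexConjugate
open Pool.Agent.Results.MP_83fd13_an.BranchSingularities (Solvable)

namespace Pool.Agent.E8helper43.FV

open Pool.Agent.E8helper4.FV Pool.Agent.Y245.SC

theorem exp_mem {r : ℝ} (hr : 1 < r) (t : ℝ) : exp ((t : ℂ) * I) ∈ ball (0 : ℂ) r := by
  rw [mem_ball_zero_iff, Complex.norm_exp_ofReal_mul_I]
  exact hr

theorem hasDerivAt_exp (t : ℝ) :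
    HasDerivAt (fun t : ℝ => exp ((t : ℂ) * I)) (I * exp ((t : ℂ) * I)) t := by
  have h1 : HasDerivAt (fun z : ℂ => exp (z * I)) (exp ((t : ℂ) * I) * (1 * I)) (t : ℂ) :=
    ((hasDerivAt_id (t : ℂ)).mul_const I).cexp
  have h2 := h1.comp_ofReal
  have h3 : exp ((t : ℂ) * I) * (1 * I) = I * exp ((t : ℂ) * I) := by ring
  rw [h3] at h2
  exact h2

/-- the derivative of a holomorphic function along the circle -/
theorem hasDerivAt_circ {r : ℝ} (hr : 1 < r) {g : ℂ → ℂ} (hg : DifferentiableOn ℂ g (ball 0 r))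
    (t : ℝ) : HasDerivAt (fun t : ℝ => g (exp ((t : ℂ) * I)))
      (I * exp ((t : ℂ) * I) * deriv g (exp ((t : ℂ) * I))) t := by
  have h1 := (hg.differentiableAt (isOpen_ball.mem_nhds (exp_mem hr t))).hasDerivAt
  have h2 := h1.comp_of_eq t (hasDerivAt_exp t) rfl
  have h3 : deriv g (exp ((t : ℂ) * I)) * (I * exp ((t : ℂ) * I)) =
      I * exp ((t : ℂ) * I) * deriv g (exp ((t : ℂ) * I)) := by ring
  rw [h3] at h2
  exact h2

theorem cont_exp : Continuous (fun t : ℝ => exp ((t : ℂ) * I)) :=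
  continuous_iff_continuousAt.2 fun t => (hasDerivAt_exp t).continuousAt

theorem cont_circ {r : ℝ} (hr : 1 < r) {g : ℂ → ℂ} (hg : ContinuousOn g (ball 0 r)) :
    Continuous (fun t : ℝ => g (exp ((t : ℂ) * I))) :=
  hg.comp_continuous cont_exp (exp_mem hr)

theorem hasDerivAt_conj {f : ℝ → ℂ} {f' : ℂ} {t : ℝ} (h : HasDerivAt f f' t) :
    HasDerivAt (fun t => conj (f t)) (conj f') t :=
  (Complex.conjCLE.toContinuousLinearMap.hasFDerivAt.comp_hasDerivAt t h)

/-- the library property from the solvability -/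
theorem serprop (φ : ℂ → ℂ) (r lam : ℝ) (hr : 1 < r) (hφ : DifferentiableOn ℂ φ (ball 0 r))
    (hinj : InjOn φ (ball 0 r)) (hlam : 0 < lam) (hS : Solvable (φ '' ball 0 1) lam) :
    SerProp (lam / 4) r φ := by
  obtain ⟨c, u, G, hu, hG, h1, h2, hu0⟩ := hS
  have hSol : Pool.Agent.TH298.Sch.Sol (φ '' ball 0 1) lam c u G := ⟨hu, hG, h1, h2⟩
  have hcont : ContinuousOn φ (closedBall 0 1) :=
    (hφ.continuousOn).mono (closedBall_subset_ball hr)
  have hb' : Bornology.IsBounded (φ '' ball 0 1) :=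
    ((isCompact_closedBall (0 : ℂ) 1).image_of_continuousOn hcont).isBounded.subset
      (image_mono ball_subset_closedBall)
  have hm' : MeasurableSet (φ '' ball 0 1) :=
    (isOpen_ball.measurableSet).image_of_continuousOn_injOn
      (hcont.mono ball_subset_closedBall) (hinj.mono (ball_subset_ball hr.le))
  have hc : c ≠ 0 := hSol.c_ne hb' hm' hlam hu0
  exact Pool.Agent.Y975.SC.Ser.ser Pool.Agent.Y50.SC.disc Pool.Agent.Y287.SC.chg
      Pool.Agent.Y287.SC.weak (Pool.Agent.Y281.SC.vek t_NZ) φ r lam c u G hr hlam hc hφ hinj hSol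

/-- integration by parts -/
theorem parts (φ : ℂ → ℂ) (r : ℝ) (hr : 1 < r) (hφ : DifferentiableOn ℂ φ (ball 0 r))
    (h s : ℂ → ℂ) (hs : DifferentiableOn ℂ s (ball 0 r))
    (hhs : ∀ w ∈ ball (0 : ℂ) r, deriv s w = h w * deriv φ w) (k : ℕ) :
    (∮ w in C(0, 1), conj (φ w) ^ (k + 1) * h w * deriv φ w) =
      -((k + 1 : ℕ) : ℂ) * ∫ t in (0 : ℝ)..(2 * Real.pi), conj (xx φ t) ^ k *
        s (exp ((t : ℂ) * I)) * conj (xd φ t) := by
  have hu : ∀ t : ℝ, HasDerivAt (fun t => conj (xx φ t) ^ (k + 1))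
      (((k + 1 : ℕ) : ℂ) * conj (xx φ t) ^ k * conj (xd φ t)) t := by
    intro t
    have h1 := (hasDerivAt_conj (hasDerivAt_circ hr hφ t)).pow (k + 1)
    exact h1
  have hv := fun t => hasDerivAt_circ hr hs t
  have cφ := cont_circ hr hφ.continuousOn
  have cφ' := cont_circ hr (hφ.deriv isOpen_ball).continuousOn
  have cs := cont_circ hr hs.continuousOn
  have cs' := cont_circ hr (hs.deriv isOpen_ball).continuousOn
  have cxd : Continuous (fun t => xd φ t) := (continuous_const.mul cont_exp).mul cφ'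
  have hib := intervalIntegral.integral_mul_deriv_eq_deriv_mul (a := 0) (b := 2 * Real.pi)
    (fun t _ => hu t) (fun t _ => hv t)
    (((continuous_const.mul ((continuous_conj.comp cφ).pow k)).mul
      (continuous_conj.comp cxd)).intervalIntegrable _ _)
    (((continuous_const.mul cont_exp).mul cs').intervalIntegrable _ _)
  have e0 : exp (((2 * Real.pi : ℝ) : ℂ) * I) = exp (((0 : ℝ) : ℂ) * I) := by
    push_cast
    rw [Complex.exp_two_pi_mul_I]
    simp
  have hxx : xx φ (2 * Real.pi) = xx φ 0 := by rw [xx, xx, e0]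
  rw [hxx, e0, sub_self, zero_sub] at hib
  have h1 : (∮ w in C(0, 1), conj (φ w) ^ (k + 1) * h w * deriv φ w) =
      ∫ t in (0 : ℝ)..(2 * Real.pi), conj (xx φ t) ^ (k + 1) *
        (I * exp ((t : ℂ) * I) * deriv s (exp ((t : ℂ) * I))) := by
    rw [circleIntegral]
    congr 1
    funext t
    rw [deriv_circleMap, smul_eq_mul]
    have h2 : circleMap 0 1 t = exp ((t : ℂ) * I) := by simp [circleMap]
    rw [h2, hhs _ (exp_mem hr t), xx]
    ring
  rw [h1, hib, neg_mul, ← intervalIntegral.integral_const_mul]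
  congr 1
  congr 1
  funext t
  ring

theorem k4 : K4 := by
  intro φ r lam hr hφ hinj hlam hS s hs hss hb
  have hser := serprop φ r lam hr hφ hinj hlam hS
  have hnz := t_NZ φ r hφ hinj
  obtain ⟨C, M, hCM⟩ := hb
  let h : ℕ → ℂ → ℂ := fun k => Nat.casesOn k (fun w => deriv (s 0) w / deriv φ w) s
  have hd0 : DifferentiableOn ℂ (fun w => deriv (s 0) w / deriv φ w) (ball 0 r) :=
    ((hs 0).deriv isOpen_ball).div (hφ.deriv isOpen_ball) hnz
  have hd : ∀ k, DifferentiableOn ℂ (h k) (ball 0 r) := by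
    intro k
    cases k with
    | zero => exact hd0
    | succ k => exact hs k
  have hrel : ∀ k, ∀ w ∈ ball (0 : ℂ) r, deriv (s k) w = h k w * deriv φ w := by
    intro k w hw
    cases k with
    | zero => exact (div_mul_cancel₀ _ (hnz w hw)).symm
    | succ k => exact hss k w hw
  obtain ⟨C0, hC0⟩ := (isCompact_closedBall (0 : ℂ) 1).exists_bound_of_continuousOn
    (hd0.continuousOn.mono (closedBall_subset_ball hr))
  have hbd : ∃ C M : ℝ, ∀ k, ∀ w ∈ closedBall (0 : ℂ) 1, ‖h k w‖ ≤ C * M ^ k := by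
    refine ⟨max (max C0 0) (|C|), max 1 |M|, ?_⟩
    have hC1 : 0 ≤ max (max C0 0) (|C|) := (abs_nonneg C).trans (le_max_right _ _)
    have hM1 : 1 ≤ max 1 |M| := le_max_left _ _
    intro k w hw
    cases k with
    | zero =>
      rw [pow_zero, mul_one]
      exact (hC0 w hw).trans ((le_max_left _ _).trans (le_max_left _ _))
    | succ k =>
      have h1 : ‖s k w‖ ≤ C * M ^ k := hCM k w hw
      calc ‖s k w‖ ≤ C * M ^ k := h1
        _ ≤ |C * M ^ k| := le_abs_self _
        _ = |C| * |M| ^ k := by rw [abs_mul, abs_pow]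
        _ ≤ max (max C0 0) (|C|) * (max 1 |M|) ^ (k + 1) := by
          apply mul_le_mul (le_max_right _ _) _ (by positivity) hC1
          calc |M| ^ k ≤ (max 1 |M|) ^ k :=
                pow_le_pow_left₀ (abs_nonneg _) (le_max_right _ _) k
            _ ≤ (max 1 |M|) ^ (k + 1) := pow_le_pow_right₀ hM1 (Nat.le_succ k)
  have h1 := hser h hd (fun k w hw => hrel k w hw) hbd
  have h2 := h1.neg
  rw [neg_zero] at h2
  have h3 : (fun k : ℕ => (-((lam / 4 : ℝ) : ℂ)) ^ k / (k.factorial : ℂ) *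
      ∫ t in (0 : ℝ)..(2 * Real.pi), conj (xx φ t) ^ k * s k (exp ((t : ℂ) * I)) *
        conj (xd φ t)) = fun k : ℕ => -((-((lam / 4 : ℝ) : ℂ)) ^ k / ((k + 1).factorial : ℂ) *
        ∮ w in C(0, 1), conj (φ w) ^ (k + 1) * h k w * deriv φ w) := by
    funext k
    rw [parts φ r hr hφ (h k) (s k) (hs k) (hrel k) k]
    have hk : ((k + 1).factorial : ℂ) = ((k + 1 : ℕ) : ℂ) * (k.factorial : ℂ) := by
      rw [Nat.factorial_succ]; push_cast; ring
    have hk1 : ((k + 1 : ℕ) : ℂ) ≠ 0 := by exact_mod_cast Nat.succ_ne_zero k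
    have hk2 : (k.factorial : ℂ) ≠ 0 := by exact_mod_cast Nat.factorial_ne_zero k
    rw [hk]
    generalize (∫ t in (0 : ℝ)..(2 * Real.pi), conj (xx φ t) ^ k * s k (exp ((t : ℂ) * I)) *
        conj (xd φ t)) = J
    generalize (-((lam / 4 : ℝ) : ℂ)) ^ k = A
    generalize ((k + 1 : ℕ) : ℂ) = n at hk1 ⊢
    generalize (k.factorial : ℂ) = m at hk2 ⊢
    field_simp
  rw [h3]
  exact h2

end Pool.Agent.E8helper43.FV
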